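import Pool.Agent.EGF.Stmts

set_option autoImplicit false

open Finset

namespace Pool.Agent.EGF.H91

theorem pal_mono {V : Type} [DecidableEq V] {k : ℕ} (c : V → V → Fin k) {S T : Finset V}
    (h : S ⊆ T) : pal c S ⊆ pal c T := by
  intro i hi
  unfold pal at hi ⊢
  rw [mem_image] at hi ⊢
  obtain ⟨p, hp, rfl⟩ := hi
  rw [mem_filter, mem_product] at hp
  refine ⟨p, ?_, rfl⟩
  rw [mem_filter, mem_product]
  exact ⟨⟨h hp.1.1, h hp.1.2⟩, hp.2⟩

/-- some fibre of a map to `Fin k` is large -/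
theorem fibre {V : Type} [DecidableEq V] {k : ℕ} (W : Finset V) (hW : W.Nonempty)
    (f : V → Fin k) : ∃ b : Fin k, (W.card : ℝ) ≤ k * ((W.filter fun y => f y = b).card : ℝ) := by
  by_contra hcon
  push Not at hcon
  have h1 : (∑ b : Fin k, ((W.filter fun y => f y = b).card : ℝ)) = W.card := by
    have := Finset.card_eq_sum_card_fiberwise (s := W) (t := (Finset.univ : Finset (Fin k)))
      (f := f) (fun x _ => by simp)
    rw [this]
    push_cast
    rfl
  obtain ⟨x, hx⟩ := hW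
  have hk : 0 < k := by
    have := (f x).2
    omega
  haveI : Nonempty (Fin k) := ⟨f x⟩
  have h2 : (∑ b : Fin k, (k : ℝ) * ((W.filter fun y => f y = b).card : ℝ)) <
      ∑ b : Fin k, (W.card : ℝ) :=
    Finset.sum_lt_sum_of_nonempty Finset.univ_nonempty (fun b _ => hcon b)
  rw [← Finset.mul_sum, h1] at h2
  simp at h2

theorem yse (hDRE : DreStmt) (hENT : EntStmt) : YseStmt := by
  intro V _ k c U B1 B0 θ E lam s Γ S hRec hθ hlog hs hB1 hB0 hB0n hdeg hE hsize hlam hlam1 hsq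
    hΓ hΓ78 hS
  -- ENT
  obtain ⟨Z, hZ, W, hWB, hWn, hZc, hWS, hWlog⟩ := hENT V (Fin k) Γ B0 S (3 * lam) (by positivity)
    hB0n hS
  -- colours
  have hWdeg : ∀ y : V, ∃ b : Fin k, y ∈ B0 →
      1 / (s : ℝ) ^ 2 * B1.card ≤ ((nb c B1 b y).card : ℝ) := by
    intro y
    by_cases hy : y ∈ B0
    · obtain ⟨b, hb⟩ := hdeg y hy
      exact ⟨b, fun _ => hb⟩
    · obtain ⟨x, hx⟩ := hB0n
      obtain ⟨b, _⟩ := hdeg x hx
      exact ⟨b, fun h => absurd h hy⟩
  choose f hf using hWdeg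
  obtain ⟨b, hb⟩ := fibre W hWn f
  set W1 := W.filter fun y => f y = b with hW1
  have hWpos : (0 : ℝ) < W.card := by exact_mod_cast hWn.card_pos
  have hkpos : (0 : ℝ) < k := by
    have : 0 < k := by
      have := b.2
      omega
    exact_mod_cast this
  have hW1pos : (0 : ℝ) < W1.card := by
    by_contra h0
    have h00 : (W1.card : ℝ) = 0 := le_antisymm (not_lt.1 h0) (by positivity)
    rw [h00] at hb
    linarith
  have hW1n : W1.Nonempty := by
    rw [← Finset.card_pos]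
    exact_mod_cast hW1pos
  have hW1W : W1 ⊆ W := Finset.filter_subset _ _
  have hlogW1 : Real.log W.card - Real.log k ≤ Real.log W1.card := by
    have h := Real.log_le_log hWpos hb
    rw [Real.log_mul hkpos.ne' hW1pos.ne'] at h
    linarith
  have hs' : (2 : ℝ) ≤ s := by exact_mod_cast hs
  have hspos : (0 : ℝ) < s := by linarith
  have ht0 : (0 : ℝ) < 1 / (s : ℝ) ^ 2 := by positivity
  have ht1 : 1 / (s : ℝ) ^ 2 ≤ 1 / 2 := by
    apply one_div_le_one_div_of_le (by norm_num)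
    nlinarith
  have hB1n : B1.Nonempty := hB0n.mono hB0
  -- DRE
  obtain ⟨Y', hY'W1, hY'n, hY'log, hY'S⟩ := hDRE V k c W1 B1 b (1 / (s : ℝ) ^ 2) (1 / 128) 2 hW1n
    hB1n ht0 ht1 (by norm_num) (by norm_num) (by norm_num) (by
      intro x hx
      rw [hW1, mem_filter] at hx
      have := hf x (hWB hx.1)
      rw [hx.2] at this
      exact this)
  have hY'B0 : Y' ⊆ B0 := fun y hy => hWB (hW1W (hY'W1 hy))
  have hY'U : Y' ⊆ U := fun y hy => hB1 (hB0 (hY'B0 hy))
  have hlogt : Real.log (1 / (1 / (s : ℝ) ^ 2)) = 2 * Real.log s := by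
    rw [one_div_one_div, Real.log_pow]
    norm_num
  rw [hlogt] at hY'log
  have hR := hRec.2 Y' hY'U hY'n
  -- E is nonnegative
  have hB0pos : (0 : ℝ) < B0.card := by exact_mod_cast hB0n.card_pos
  have hE0 : 0 ≤ E := by
    have : Real.log B0.card ≤ Real.log U.card := by
      apply Real.log_le_log hB0pos
      exact_mod_cast Finset.card_le_card (hB0.trans hB1)
    linarith
  have hk1 : (1 : ℝ) ≤ k := by
    have : 1 ≤ k := by
      have := b.2
      omega
    exact_mod_cast this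
  have hlogk : 0 ≤ Real.log k := Real.log_nonneg hk1
  have hlogs : 0 ≤ Real.log s := Real.log_nonneg (by linarith)
  -- the square root
  have hh : 3 * √(3 * lam) ≤ θ / 8 := by
    have h1 : √(3 * lam) ≤ 2 * √lam := by
      rw [show 2 * √lam = √(4 * lam) by
        rw [Real.sqrt_mul (by norm_num), show (4 : ℝ) = 2 ^ 2 by norm_num,
          Real.sqrt_sq (by norm_num)]]
      exact Real.sqrt_le_sqrt (by linarith)
    have h2 : 0 ≤ √lam := Real.sqrt_nonneg _
    linarith
  have hΓ0 : (0 : ℝ) ≤ Γ.card := by positivity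
  have hhΓ : 3 * √(3 * lam) * Γ.card ≤ θ / 8 * Γ.card := mul_le_mul_of_nonneg_right hh hΓ0
  have hhΓ0 : 0 ≤ 3 * √(3 * lam) * Γ.card := by positivity
  have hpalU : (0 : ℝ) < (pal c U).card := by
    by_contra h0
    have h00 : ((pal c U).card : ℝ) = 0 := le_antisymm (not_lt.1 h0) (by positivity)
    rw [h00] at hlog
    linarith
  have hΓpos : (0 : ℝ) < Γ.card := by linarith
  -- the estimate
  have hmain : θ * ((pal c U).card - (pal c Y').card) ≤ θ * (15 / 56 * Γ.card) := by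
    have h1 : θ * ((pal c U).card - (pal c Y').card) ≤
        Real.log U.card / 64 + θ / 8 * Γ.card := by
      have := hY'log
      linarith
    have h2 : θ * ((pal c U).card : ℝ) ≤ θ * (8 / 7 * Γ.card) :=
      mul_le_mul_of_nonneg_left (by linarith) hθ.le
    nlinarith
  have hmain2 : ((pal c U).card : ℝ) - (pal c Y').card ≤ 15 / 56 * Γ.card :=
    le_of_mul_le_mul_left hmain hθ
  -- a colour
  have hex : ∃ i ∈ Γ \ Z, i ∈ pal c Y' := by
    by_contra hcon
    push Not at hcon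
    have hsub : Γ \ Z ⊆ pal c U \ pal c Y' := by
      intro i hi
      rw [mem_sdiff]
      exact ⟨hΓ (mem_sdiff.1 hi).1, hcon i hi⟩
    have hc1 := Finset.card_le_card hsub
    rw [Finset.card_sdiff_of_subset hZ, Finset.card_sdiff_of_subset (pal_mono c hY'U)] at hc1
    have hc2 := Finset.card_le_card hZ
    have hc3 := Finset.card_le_card (pal_mono c hY'U)
    have hc4 : (Γ.card : ℝ) - Z.card ≤ (pal c U).card - (pal c Y').card := by
      have : ((Γ.card - Z.card : ℕ) : ℝ) ≤ (((pal c U).card - (pal c Y').card : ℕ) : ℝ) := by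
        exact_mod_cast hc1
      rw [Nat.cast_sub hc2, Nat.cast_sub hc3] at this
      exact this
    have hc5 : (Z.card : ℝ) ≤ 6 / 100 * Γ.card := by
      have : 2 * (3 * lam) * (Γ.card : ℝ) ≤ 6 / 100 * Γ.card :=
        mul_le_mul_of_nonneg_right (by linarith) hΓ0
      linarith
    linarith
  obtain ⟨i, hiΓZ, hiY⟩ := hex
  unfold pal at hiY
  rw [mem_image] at hiY
  obtain ⟨p, hp, hpi⟩ := hiY
  rw [mem_filter, mem_product] at hp
  obtain ⟨⟨hp1, hp2⟩, hpne⟩ := hp
  have hWSi := hWS i hiΓZ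
  refine ⟨i, (mem_sdiff.1 hiΓZ).1, b, p.1, hY'B0 hp1, p.2, hY'B0 hp2, hpne, hpi,
    hWSi (hW1W (hY'W1 hp1)), hWSi (hW1W (hY'W1 hp2)), ?_⟩
  have h := hY'S {p.1, p.2} (by
    intro z hz
    rw [mem_insert, mem_singleton] at hz
    rcases hz with rfl | rfl
    · exact hp1
    · exact hp2) ⟨p.1, by simp⟩ Finset.card_le_two
  have hexp : (1 / (s : ℝ) ^ 2) ^ (1 + ((2 : ℕ) : ℝ) / (1 / 128)) = (1 / (s : ℝ) ^ 2) ^ 257 := by
    rw [show (1 + ((2 : ℕ) : ℝ) / (1 / 128)) = ((257 : ℕ) : ℝ) by norm_num, Real.rpow_natCast]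
  rw [hexp] at h
  refine h.trans ?_
  have hsub : (B1.filter fun y => ∀ x ∈ ({p.1, p.2} : Finset V), y ≠ x ∧ c x y = b) ⊆
      nb2 c B1 b p.1 p.2 := by
    intro z hz
    rw [mem_filter] at hz
    unfold nb2
    rw [mem_filter]
    have h1 := hz.2 p.1 (by simp)
    have h2 := hz.2 p.2 (by simp)
    exact ⟨hz.1, h1.1, h2.1, h1.2, h2.2⟩
  exact_mod_cast Finset.card_le_card hsub

end Pool.Agent.EGF.H91
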