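import Pool.Agent.EGF.StmtsS

/-!
# EGF row RBC: most of the big colours are robust (helper91)
-/

set_option autoImplicit false

open Finset

namespace Pool.Agent.EGF.H91

theorem nb_mono {V : Type} [DecidableEq V] {k : ℕ} {c : V → V → Fin k} {W W' : Finset V}
    (h : W ⊆ W') (g : Fin k) (x : V) : nb c W g x ⊆ nb c W' g x := by
  unfold nb
  exact filter_subset_filter _ h

theorem rbc (ent : EntStmt) : RbcStmt := by
  classical
  intro V _ k c U A T w κ hκ hw hw1 hrec hAU hA Z hZ hnr
  have hsq : 0 < √κ := Real.sqrt_pos.2 hκ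
  have hex : ∀ g ∈ Z, ∃ R ⊆ A, (R.card : ℝ) ≤ κ * A.card ∧
      ∀ x ∈ A \ R, ¬ T ≤ ((nb c (A \ R) g x).card : ℝ) := by
    intro g hg
    have h := hnr g hg
    unfold Rbs at h
    push Not at h
    obtain ⟨R, h1, h2, h3⟩ := h
    exact ⟨R, h1, h2, fun x hx => not_le.2 (h3 x hx)⟩
  choose! R hRA hRc hRn using hex
  obtain ⟨Z', hZ', A', hA'A, hA'ne, hZ'c, hsub, hlog⟩ := ent V (Fin k) Z A (fun g => A \ R g) κ hκ hA
    (by
      intro g hg
      have h1 : A ∩ (A \ R g) = A \ R g := inter_eq_right.2 sdiff_subset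
      rw [h1, card_sdiff_of_subset (hRA g hg), Nat.cast_sub (card_le_card (hRA g hg))]
      have h2 := hRc g hg
      linarith)
  -- the colours of `Z \ Z'` are not big in `A'`
  have hbig : big c A' T ⊆ big c U T \ (Z \ Z') := by
    intro g hg
    unfold big at hg
    rw [mem_filter] at hg
    obtain ⟨-, x, hx, hT⟩ := hg
    rw [mem_sdiff]
    constructor
    · unfold big
      rw [mem_filter]
      exact ⟨mem_univ _, x, hAU (hA'A hx), hT.trans (by
        exact_mod_cast card_le_card (nb_mono (hA'A.trans hAU) g x))⟩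
    · intro hgz
      have h1 := hsub g hgz
      refine hRn g (mem_sdiff.1 hgz).1 x (h1 hx) (hT.trans ?_)
      exact_mod_cast card_le_card (nb_mono h1 g x)
  have hc1 := card_le_card hbig
  rw [card_sdiff_of_subset (sdiff_subset.trans hZ), card_sdiff_of_subset hZ'] at hc1
  have hc2 : Z.card ≤ (big c U T).card := card_le_card hZ
  have hc3 : Z'.card ≤ Z.card := card_le_card hZ'
  have hc4 : (big c A' T).card + Z.card ≤ (big c U T).card + Z'.card := by omega
  have hc5 : ((big c A' T).card : ℝ) + Z.card ≤ (big c U T).card + Z'.card := by exact_mod_cast hc4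
  have hR := hrec A' (hA'A.trans hAU) hA'ne
  have hZ0 : (0 : ℝ) ≤ Z.card := Nat.cast_nonneg _
  have hw0 : 0 < w := by linarith
  have h1 : w * ((Z.card : ℝ) - Z'.card) ≤ Real.log U.card - Real.log A'.card := by
    refine le_trans (mul_le_mul_of_nonneg_left ?_ hw0.le) hR
    linarith
  have hκ' : κ = √κ * √κ := (Real.mul_self_sqrt hκ.le).symm
  have h24 : √κ ≤ 1 / 24 := by linarith
  have hκ2 : κ ≤ 1 / 576 := by
    rw [hκ']
    nlinarith
  have h2 : w * (Z'.card : ℝ) ≤ w * Z.card / 288 := by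
    have h3 : (Z'.card : ℝ) ≤ Z.card / 288 := by
      refine hZ'c.trans ?_
      nlinarith
    have h4 := mul_le_mul_of_nonneg_left h3 hw0.le
    linarith
  have h3 : 3 * √κ * (Z.card : ℝ) ≤ w * Z.card / 8 := by
    have h4 : 3 * √κ ≤ w / 8 := by linarith
    have h5 := mul_le_mul_of_nonneg_right h4 hZ0
    linarith
  have hwZ : 0 ≤ w * (Z.card : ℝ) := mul_nonneg hw0.le hZ0
  have h5 : w * ((Z.card : ℝ) - Z'.card) = w * Z.card - w * Z'.card := by ring
  linarith

end Pool.Agent.EGF.H91
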